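import Pool.Agent.helper96.PP2.SpecC

/-!
# URT: roots in the uniform subgroups
-/

set_option autoImplicit false

namespace Pool.Agent.PP2

open Topology Matrix

/-- the ring of multipliers of `V` -/
def URT_S {R : Type} [CommRing R] (V : AddSubgroup (M2 R)) : Subring R where
  carrier := {s | ∀ W ∈ V, s • W ∈ V}
  mul_mem' := by
    intro a b ha hb W hW
    rw [mul_smul]
    exact ha _ (hb W hW)
  one_mem' := by
    intro W hW
    rw [one_smul]
    exact hW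
  add_mem' := by
    intro a b ha hb W hW
    rw [add_smul]
    exact V.add_mem (ha W hW) (hb W hW)
  zero_mem' := by
    intro W _
    rw [zero_smul]
    exact V.zero_mem
  neg_mem' := by
    intro a ha W hW
    rw [neg_smul]
    exact V.neg_mem (ha W hW)

theorem URT_S_closed {R : Type} [CommRing R] [TopologicalSpace R] [IsTopologicalRing R]
    (V : AddSubgroup (M2 R)) (hV : IsClosed (V : Set (M2 R))) : IsClosed (URT_S V : Set R) := by
  have : (URT_S V : Set R) = ⋂ W ∈ V, (fun s : R => s • W) ⁻¹' (V : Set (M2 R)) := by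
    ext s
    simp only [Set.mem_iInter, Set.mem_preimage, SetLike.mem_coe]
    exact Iff.rfl
  rw [this]
  refine isClosed_biInter fun W _ => hV.preimage ?_
  exact continuous_id.smul continuous_const

theorem URT_mem_CX {R : Type} [CommRing R] (C : Subring R) (X Y : M2 R) :
    Y ∈ CX C X ↔ ∃ c ∈ C, c • X = Y := by
  unfold CX
  rw [AddSubgroup.mem_map]
  exact Iff.rfl

theorem URT_mem_sN {R : Type} [CommRing R] (c : R) (N : AddSubgroup (M2 R)) (Y : M2 R) :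
    Y ∈ sN c N ↔ ∃ W ∈ N, c • W = Y := by
  unfold sN
  rw [AddSubgroup.mem_map]
  exact Iff.rfl

theorem URT_ES_mono {R : Type} [CommRing R] [Invertible (2 : R)] (J : Ideal R) {N N' : AddSubgroup (M2 R)}
    (h : N ≤ N') : ES J N ≤ ES J N' :=
  Subgroup.closure_mono (fun _ hg => ⟨hg.1, h hg.2⟩)

theorem URT_sN_mono {R : Type} [CommRing R] (c : R) {N N' : AddSubgroup (M2 R)}
    (h : N ≤ N') : sN c N ≤ sN c N' :=
  AddSubgroup.map_mono h

theorem URT_comm {R : Type} [CommRing R] [Invertible (2 : R)] (a b : GL (Fin 2) R) (Y : M2 R) (x y : R)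
    (ha : TH a = x • Y) (hb : TH b = y • Y) : Commute a b := by
  apply Units.ext
  rw [Units.val_mul, Units.val_mul, Lib_decomp a, Lib_decomp b, ha, hb]
  simp only [add_mul, mul_add, smul_mul_assoc, mul_smul_comm, one_mul, mul_one, smul_add, smul_smul]
  rw [mul_comm (ht b) (ht a), mul_comm (ht b) x, mul_comm y (ht a), mul_comm y x]
  abel

theorem URT_row (hHAV : HAV_stmt) (hEXI : EXI_stmt) (hSUB : SUB_stmt) (hIDX : IDX_stmt) (hMOX : MOX_stmt)
    (hPMV : PMV_stmt) (hPWT : PWT_stmt) (hUBA : UBA_stmt) (hTDG : TDG_stmt) : URT_stmt := by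
  intro p R _ _ _ _ _ _ J hp hp2 hS V hV m hm h hh
  have _ := hHAV
  obtain ⟨_, hsub⟩ := hSUB p R J hp hp2 hS
  obtain ⟨hcomp, hT2, _⟩ := hTDG p R J hS
  -- the element Y'
  have hVm := (hPMV p R J hp hp2 hS V hV (m + 1) (m + 1) le_rfl).1
  have hh2 := ((hsub _ hVm).1 h).1 hh
  obtain ⟨hhS, hhN⟩ := hh2
  obtain ⟨Y, hYV, hYh⟩ := (URT_mem_sN _ _ _).1 hhN
  -- the group V0
  obtain ⟨S, hSdef⟩ : ∃ S, S = URT_S V := ⟨_, rfl⟩
  have hSmem : ∀ s : R, s ∈ S ↔ ∀ W ∈ V, s • W ∈ V := by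
    intro s
    rw [hSdef]
    exact Iff.rfl
  obtain ⟨V0, hV0⟩ : ∃ V0, V0 = CX S Y := ⟨_, rfl⟩
  have hV0m : ∀ X, X ∈ V0 ↔ ∃ c ∈ S, c • Y = X := by
    intro X
    rw [hV0]
    exact URT_mem_CX S Y X
  have hadm : Adm J V0 := by
    rw [hV0]
    apply hMOX p R J hp hp2 hS S Y
    · rw [hSdef]
      exact URT_S_closed V hV.closed
    · exact hV.tr Y hYV
    · exact hV.ent Y hYV
    · rw [hSmem]
      intro W hW
      exact hV.bf Y hYV Y hYV W hW
  have hV0V : V0 ≤ V := by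
    intro X hX
    obtain ⟨c, hc, rfl⟩ := (hV0m X).1 hX
    exact (hSmem c).1 hc Y hYV
  have hYV0 : Y ∈ V0 := (hV0m Y).2 ⟨1, S.one_mem, one_smul _ _⟩
  have hadmj : ∀ j, Adm J (sN ((p : R) ^ j) V0) := fun j =>
    (hPMV p R J hp hp2 hS V0 hadm j j le_rfl).1
  have hmono : ∀ j k, j ≤ k → sN ((p : R) ^ k) V0 ≤ sN ((p : R) ^ j) V0 := fun j k hjk =>
    (hPMV p R J hp hp2 hS V0 hadm j k hjk).2.le
  -- the claim for one step
  have hstep : ∀ j, m ≤ j → ∀ h' ∈ ES J (sN ((p : R) ^ (j + 1)) V0),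
      ∃ g' ∈ ES J (sN ((p : R) ^ j) V0), (g' ^ p)⁻¹ * h' ∈ ES J (sN ((p : R) ^ (j + 2)) V0) := by
    intro j hj h' hh'
    obtain ⟨hh'S, hh'N⟩ := ((hsub _ (hadmj (j + 1))).1 h').1 hh'
    obtain ⟨W, hW, hWh⟩ := (URT_mem_sN _ _ _).1 hh'N
    have hWj : (p : R) ^ j • W ∈ sN ((p : R) ^ j) V0 := (URT_mem_sN _ _ _).2 ⟨W, hW, rfl⟩
    obtain ⟨g', hg'S, hg'T⟩ := (hEXI p R J hp hp2 hS).1 ((p : R) ^ j • W)
      ((hadmj j).tr _ hWj) ((hadmj j).ent _ hWj)
    obtain ⟨t, ht1, ht2⟩ := hPWT p R J hp hp2 hS V0 hadm j (hm.trans hj) g' hg'S W hW hg'T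
    have hg'j : g' ∈ ES J (sN ((p : R) ^ j) V0) := by
      rw [(hsub _ (hadmj j)).1 g']
      refine ⟨hg'S, ?_⟩
      rw [hg'T]
      exact hWj
    refine ⟨g', hg'j, ?_⟩
    have e1 : (p : R) • (t • W) ∈ V0 := by
      rw [Nat.cast_smul_eq_nsmul R]
      exact V0.nsmul_mem (ht1 W hW) p
    have e2 : g' ^ p ∈ ES J (sN ((p : R) ^ (j + 1)) V0) := by
      rw [(hsub _ (hadmj (j + 1))).1]
      refine ⟨(Sg J).pow_mem hg'S p, ?_⟩
      rw [ht2, mul_smul]
      refine (URT_mem_sN _ _ _).2 ⟨_, ?_, rfl⟩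
      rw [add_smul, one_smul, mul_smul]
      exact V0.add_mem hW e1
    have hid := (hPMV p R J hp hp2 hS V0 hadm (j + 1) (j + 2) (by omega)).2
    rw [((hIDX p R J hp hp2 hS _ _ hid).1 (g' ^ p) e2 h' hh')]
    rw [ht2, ← hWh]
    refine (URT_mem_sN _ _ _).2 ⟨-(t • W), V0.neg_mem (ht1 W hW), ?_⟩
    rw [smul_neg, smul_smul, ← sub_smul, ← neg_smul]
    congr 1
    ring
  -- the compact sets
  obtain ⟨K, hK⟩ : ∃ K : ℕ → Set (GL (Fin 2) R), K = fun k => {G | G ∈ ES J (sN ((p : R) ^ m) V0) ∧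
      (G ^ p)⁻¹ * h ∈ ES J (sN ((p : R) ^ (m + 1 + k)) V0)} := ⟨_, rfl⟩
  have hKm : ∀ k G, G ∈ K k ↔ G ∈ ES J (sN ((p : R) ^ m) V0) ∧
      (G ^ p)⁻¹ * h ∈ ES J (sN ((p : R) ^ (m + 1 + k)) V0) := by
    intro k G
    rw [hK]
    exact Iff.rfl
  have hKcl : ∀ k, IsClosed (K k) := by
    intro k
    rw [hK]
    have c1 : IsClosed (ES J (sN ((p : R) ^ m) V0) : Set (GL (Fin 2) R)) := (hsub _ (hadmj m)).2
    have c2 : IsClosed (ES J (sN ((p : R) ^ (m + 1 + k)) V0) : Set (GL (Fin 2) R)) :=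
      (hsub _ (hadmj _)).2
    have c3 : Continuous (fun G : GL (Fin 2) R => (G ^ p)⁻¹ * h) :=
      (continuous_pow p).inv.mul continuous_const
    exact c1.inter (c2.preimage c3)
  have hKne : ∀ k, (K k).Nonempty := by
    intro k
    induction k with
    | zero =>
      refine ⟨1, (hKm 0 1).2 ⟨Subgroup.one_mem _, ?_⟩⟩
      rw [one_pow, inv_one, one_mul, (hsub _ (hadmj _)).1]
      refine ⟨hhS, ?_⟩
      exact (URT_mem_sN _ _ _).2 ⟨Y, hYV0, hYh⟩
    | succ k ih =>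
      obtain ⟨G, hG⟩ := ih
      obtain ⟨hG1, hG2⟩ := (hKm k G).1 hG
      have hG2' : (G ^ p)⁻¹ * h ∈ ES J (sN ((p : R) ^ ((m + k) + 1)) V0) := by
        have : m + 1 + k = (m + k) + 1 := by omega
        rw [← this]
        exact hG2
      obtain ⟨g', hg1, hg2⟩ := hstep (m + k) (by omega) _ hG2'
      refine ⟨G * g', (hKm _ _).2 ⟨?_, ?_⟩⟩
      · exact Subgroup.mul_mem _ hG1 (URT_ES_mono J (hmono m (m + k) (by omega)) hg1)
      · have hcomm : Commute G g' := by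
          obtain ⟨_, t1⟩ := ((hsub _ (hadmj m)).1 G).1 hG1
          obtain ⟨_, t2⟩ := ((hsub _ (hadmj (m + k))).1 g').1 hg1
          obtain ⟨W1, hW1, hW1'⟩ := (URT_mem_sN _ _ _).1 t1
          obtain ⟨W2, hW2, hW2'⟩ := (URT_mem_sN _ _ _).1 t2
          obtain ⟨c1, _, hc1⟩ := (hV0m W1).1 hW1
          obtain ⟨c2, _, hc2⟩ := (hV0m W2).1 hW2
          apply URT_comm G g' Y ((p : R) ^ m * c1) ((p : R) ^ (m + k) * c2)
          · rw [mul_smul, hc1, hW1']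
          · rw [mul_smul, hc2, hW2']
        rw [hcomm.mul_pow, _root_.mul_inv_rev, mul_assoc]
        have : m + 1 + (k + 1) = (m + k) + 2 := by omega
        rw [this]
        exact hg2
  have hKanti : ∀ k, K (k + 1) ⊆ K k := by
    intro k G hG
    obtain ⟨hG1, hG2⟩ := (hKm _ G).1 hG
    exact (hKm _ _).2 ⟨hG1, URT_ES_mono J (hmono _ _ (by omega)) hG2⟩
  obtain ⟨G, hG⟩ := IsCompact.nonempty_iInter_of_sequence_nonempty_isCompact_isClosed K hKanti hKne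
    (hKcl 0).isCompact hKcl
  rw [Set.mem_iInter] at hG
  refine ⟨G, ?_, ?_⟩
  · exact URT_ES_mono J (URT_sN_mono _ hV0V) ((hKm 0 G).1 (hG 0)).1
  · by_contra hne
    have hx : (G ^ p)⁻¹ * h ≠ 1 := by
      intro hx
      apply hne
      rw [inv_mul_eq_one] at hx
      exact hx
    have hU : ({(G ^ p)⁻¹ * h}ᶜ : Set (GL (Fin 2) R)) ∈ 𝓝 (1 : GL (Fin 2) R) := by
      apply IsOpen.mem_nhds
      · exact isOpen_compl_singleton
      · intro h1
        exact hx h1.symm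
    obtain ⟨m0, hm0⟩ := hUBA p R J hp hp2 hS V0 hadm _ hU
    have h1 := ((hKm m0 G).1 (hG m0)).2
    have h2 := URT_ES_mono J (hmono m0 (m + 1 + m0) (by omega)) h1
    exact hm0 h2 rfl

end Pool.Agent.PP2
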